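import Mathlib
import Pool.Graph.R_pool_sql_team_seeded_3997aac3.Q29.HT.Defs
import Pool.Graph.R_pool_sql_team_seeded_3997aac3.Q29.NH.Defs
import Pool.Graph.R_pool_sql_team_seeded_63374d34.N202.QR.Defs

/-!
# The classes of algebraic cycles on abelian varieties over finite fields, and on the varieties which
specialize to them: the model
-/

set_option autoImplicit false

namespace Pool.Agent.H395.Cyc

open NumberField Pool.Agent.H204R3.CM Pool.Agent.W547.KB Pool.Agent.W547.LD Pool.Agent.W547.HR
  Pool.Agent.W495.TA Pool.Agent.TH117.PO Pool.Agent.Y137.HD Module Pool.Agent.N202.QR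
  Pool.Agent.Q29.HT

noncomputable section

/-- The coefficients of the cohomology theories: for each prime number `l` an algebraically closed
field which contains the field of `l`-adic numbers (for `l = p` it should contain the ring of `p`-adic
periods). -/
structure Coef where
  Ω : Nat.Primes → Type
  [field : ∀ l, Field (Ω l)]
  [char : ∀ l, CharZero (Ω l)]
  [alg : ∀ l : Nat.Primes, Algebra ℚ_[(l : ℕ)] (Ω l)]
  [closed : ∀ l, IsAlgClosed (Ω l)]

attribute [instance] Coef.field Coef.char Coef.alg Coef.closed

variable {p : ℕ} [Fact p.Prime] {ν : PadicAlgCl p ≃+* ℂ} {F : Coef}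

/-- The rational homology of the lifting of `Y`, an abelian variety with complex multiplication. -/
def H1 (Y : RedAV p ν) : Type := Y.X.H1

instance (Y : RedAV p ν) : AddCommGroup (H1 Y) := CMAV.gH Y.X

instance (Y : RedAV p ν) : Module ℚ (H1 Y) := CMAV.qH Y.X

/-- The tangent space of the lifting: the product of the spaces `ℂ ^ Φ i`, `Φ i` the CM types. -/
def Tan (Y : RedAV p ν) : Type := Y.X.Tan

instance (Y : RedAV p ν) : AddCommGroup (Tan Y) := CMAV.gT Y.X

instance (Y : RedAV p ν) : Module ℂ (Tan Y) := CMAV.cT Y.X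

/-- The inclusion of the rational homology into the tangent space. -/
def per {Y : RedAV p ν} (x : H1 Y) : Tan Y := fun i φ => φ.1 (x i)

/-- The dimension of the rational homology. -/
def betti (Y : RedAV p ν) : ℕ := finrank ℚ (H1 Y)

/-- A function of vectors `v k` in the rational homology, `k` in `κ`, with values in `F.Ω l`; a
cohomology class of `Y` of degree `card κ` is such a function which is alternating and linear. -/
def Fun (F : Coef) (l : Nat.Primes) (Y : RedAV p ν) (κ : Type) : Type := (κ → H1 Y) → F.Ω l

/-- Functions for all prime numbers `l`. -/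
def Cls (F : Coef) (Y : RedAV p ν) (κ : Type) : Type := (l : Nat.Primes) → Fun F l Y κ

/-- A homomorphism between the liftings of `Y` and `Z`, up to isogeny: a linear map of the rational
homology which comes from a complex linear map of the tangent spaces. -/
def LiftHom (Y Z : RedAV p ν) : Type :=
  {h : H1 Y →ₗ[ℚ] H1 Z // ∃ g : Tan Y →ₗ[ℂ] Tan Z, ∀ x, g (per x) = per (h x)}

/-- The value of a homomorphism. -/
def LiftHom.app {Y Z : RedAV p ν} (h : LiftHom Y Z) (x : H1 Y) : H1 Z := h.1 x

/-- The Frobenius endomorphism on the rational homology of the lifting. -/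
def frob (Y : RedAV p ν) (x : H1 Y) : H1 Y := fun i => Y.π i * x i

/-- A rational Hodge class of the lifting: an alternating form on the rational homology which comes
from a real form on the tangent space that is invariant under the circle. -/
def HodgeCls (Y : RedAV p ν) (κ : Type) : Type :=
  {f : (H1 Y) [⋀^κ]→ₗ[ℚ] ℚ // ∃ ψ : MultilinearMap ℝ (fun _ : κ => Tan Y) ℝ,
    (∀ v, ψ (fun k => per (v k)) = f v) ∧ ∀ z : ℂ, ‖z‖ = 1 → ∀ u, ψ (fun k => z • u k) = ψ u}

/-- The value of a rational Hodge class on vectors of the rational homology. -/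
def HodgeCls.value {Y : RedAV p ν} {κ : Type} (f : HodgeCls Y κ) (v : κ → H1 Y) : ℚ := f.1 v

/-- The functions with values in `F.Ω l` which are given by a rational Hodge class. -/
def HodgeCls.cls {Y : RedAV p ν} {κ : Type} (f : HodgeCls Y κ) : Cls F Y κ :=
  fun l v => (f.value v : F.Ω l)

/-- `E` is the Riemann form of a polarization of the lifting: the restriction of the imaginary part of
a positive definite Hermitian form on the tangent space. -/
def IsRiemann {Y : RedAV p ν} (E : H1 Y → H1 Y → ℚ) : Prop :=
  ∃ H : Tan Y → Tan Y → ℂ, (∀ u', IsLinearMap ℂ fun u => H u u') ∧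
    (∀ u u', H u' u = starRingEnd ℂ (H u u')) ∧ (∀ u, u ≠ 0 → 0 < (H u u).re) ∧
    ∀ v w, (H (per v) (per w)).im = E v w

/-- `f` is a split Weil class of degree `n` on a lifting of dimension `n`: there is an endomorphism
`h = √-d` which may be moved in `f` from each variable to each other variable, and for some
polarization `E` with `E (h v) w = - E v (h w)` there is a subspace of half the dimension, stable
under `h` and isotropic for `E`. -/
def HodgeCls.IsSplitWeil {Y : RedAV p ν} {n : ℕ} (f : HodgeCls Y (Fin n)) : Prop :=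
  betti Y = 2 * n ∧ ∃ (d : ℕ) (h : LiftHom Y Y), 0 < d ∧ (∀ w, h.app (h.app w) = -((d : ℚ) • w)) ∧
    (∀ v k l, f.value (Function.update v k (h.app (v k))) =
      f.value (Function.update v l (h.app (v l)))) ∧
    ∃ (E : H1 Y → H1 Y → ℚ) (W : Submodule ℚ (H1 Y)), IsRiemann E ∧
      (∀ v w, E (h.app v) w = -E v (h.app w)) ∧ 2 * finrank ℚ W = betti Y ∧
      (∀ w ∈ W, h.app w ∈ W) ∧ ∀ v ∈ W, ∀ w ∈ W, E v w = 0

/-- The function is the restriction of an alternating form with coefficients in `F.Ω l`. -/
def Fun.IsForm {l : Nat.Primes} {Y : RedAV p ν} {κ : Type} (z : Fun F l Y κ) : Prop :=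
  ∃ f : (TM (F.Ω l) Y) [⋀^κ]→ₗ[F.Ω l] F.Ω l, z = res f

/-- The cup product of two functions, up to a positive factor: the alternating sum of the product. -/
def Fun.cup {l : Nat.Primes} {Y : RedAV p ν} {κ κ' : Type} [Fintype κ] [DecidableEq κ] [Fintype κ']
    [DecidableEq κ'] (z : Fun F l Y κ) (w : Fun F l Y κ') : Fun F l Y (κ ⊕ κ') :=
  altSum (times z w)

/-- The pull-back of a function along a homomorphism of the liftings. -/
def Fun.pull {l : Nat.Primes} {Y Z : RedAV p ν} {κ : Type} (h : LiftHom Y Z) (z : Fun F l Z κ) :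
    Fun F l Y κ :=
  fun v => z fun k => h.app (v k)

/-- Tate classes of degree `2 m` over the extension of degree `s` of the ground field. -/
def Fun.IsTate {l : Nat.Primes} {Y : RedAV p ν} {κ : Type} (s m : ℕ) (z : Fun F l Y κ) : Prop :=
  ∀ v, z (fun k => (frob Y)^[s] (v k)) = ((p : F.Ω l) ^ Y.a) ^ (m * s) * z v

/-- The constant function. -/
def Fun.const (F : Coef) (l : Nat.Primes) (Y : RedAV p ν) (κ : Type) (c : F.Ω l) : Fun F l Y κ :=
  fun _ => c

/-- The sum of functions. -/
def Fun.add {l : Nat.Primes} {Y : RedAV p ν} {κ : Type} (z w : Fun F l Y κ) : Fun F l Y κ :=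
  fun v => z v + w v

/-- The product with a number. -/
def Fun.mul {l : Nat.Primes} {Y : RedAV p ν} {κ : Type} (c : F.Ω l) (z : Fun F l Y κ) :
    Fun F l Y κ :=
  fun v => c * z v

/-- A set of families of functions, one for each `l`; think of the set of the families of the classes
of algebraic cycles with rational coefficients (in degree `card κ`, the Tate twists are trivialized). -/
def Sys (p : ℕ) [Fact p.Prime] (ν : PadicAlgCl p ≃+* ℂ) (F : Coef) : Type 1 :=
  (Y : RedAV p ν) → (κ : Type) → Cls F Y κ → Prop

/-- The classes at one prime number `l`. -/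
def Sys.mem (C : Sys p ν F) (l : Nat.Primes) (Y : RedAV p ν) (κ : Type) (z : Fun F l Y κ) : Prop :=
  ∃ w, C Y κ w ∧ w l = z

/-- The form `Tr (a * conj (x) * y)` on a CM field. -/
def trForm (A : CMPair) (a x y : A.E) : ℚ :=
  Algebra.trace ℚ A.E (a * IsCMField.complexConj A.E x * y)

/-- The Riemann form of the lifting given by `α`. -/
def polar {Y : RedAV p ν} (α x y : H1 Y) : ℚ :=
  ∑ i, trForm (Y.X.factor i) (α i) (x i) (y i)

/-- The form `polar α` is the Riemann form of a polarization (compatible with the complex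
multiplications): all components of `α` in the tangent space are positive multiples of the imaginary
unit. By theorems of Honda, Tate and Zink each polarized abelian variety over an algebraic closure of a
finite field is isogenous to the reduction of such a polarized lifting. -/
def IsPolarization {Y : RedAV p ν} (α : H1 Y) : Prop :=
  ∀ i φ, (per α i φ).re = 0 ∧ 0 < (per α i φ).im

/-- The Riemann form with values in `F.Ω l`. -/
def polarAt (F : Coef) (l : Nat.Primes) {Y : RedAV p ν} (α x y : H1 Y) : F.Ω l :=
  (polar α x y : F.Ω l)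

/-- **The properties of the system of the classes of algebraic cycles.** The families of functions are
families of cohomology classes; they are stable under sums, cup products, pull-backs and push-forwards
along homomorphisms of the liftings; the degrees are rational numbers which do not depend on `l`; the
rational Hodge classes of degree two of the liftings (Lefschetz) and the split Weil classes in the
dimensions four and six (Markman) are algebraic; the intersection numbers with all rational Hodge
classes of the lifting are `l`-adic numbers (clear for `l ≠ p`; for `l = p` this is the theorem of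
Deligne, Ogus, Blasius and Wintenberger that Hodge classes on abelian varieties are crystalline);
Tate classes of degree two are combinations of divisors (Tate); the classes of cycles are Tate
classes; the Rosati involution is positive (Weil). -/
structure IsTheory (C : Sys p ν F) : Prop where
  form : ∀ {Y κ} (z), C Y κ z → ∀ l, (z l).IsForm
  zero : ∀ Y κ, C Y κ fun l => .const F l Y κ 0
  add : ∀ {Y κ} (z w), C Y κ z → C Y κ w → C Y κ fun l => (z l).add (w l)
  smul : ∀ {Y κ} (a : ℚ) (z), C Y κ z → C Y κ fun l => (z l).mul a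
  reindex : ∀ {Y} {κ κ' : Type} (e : κ ≃ κ') (z), C Y κ z → C Y κ' fun l v => z l fun k => v (e k)
  unit : ∀ (Y) (κ : Type) [IsEmpty κ], C Y κ fun l => .const F l Y κ 1
  cup : ∀ {Y} {κ κ' : Type} [Fintype κ] [DecidableEq κ] [Fintype κ'] [DecidableEq κ'] (z w),
    C Y κ z → C Y κ' w → C Y (κ ⊕ κ') fun l => (z l).cup (w l)
  pull : ∀ {Y Z} {κ : Type} (h : LiftHom Y Z) (z), C Z κ z → C Y κ fun l => (z l).pull h
  push : ∀ {Y Y' Z} {κ κ' : Type} (h : LiftHom Y Z) (h' : LiftHom Y' Z),
    Function.Bijective (fun v : H1 Y × H1 Y' => h.app v.1 + h'.app v.2) →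
    ∀ (b : Basis κ' ℚ (H1 Y')) (z), C Z (κ ⊕ κ') z →
      C Y κ fun l v => z l (Sum.elim (fun k => h.app (v k)) fun k => h'.app (b k))
  top : ∀ {Y κ} (z), Nat.card κ = betti Y → C Y κ z → ∀ v, ∃ a : ℚ, ∀ l, z l v = a
  hodge : ∀ {Y} (f : HodgeCls Y (Fin 2)), C Y (Fin 2) f.cls
  weil : ∀ {Y} {n : ℕ} (f : HodgeCls Y (Fin n)), n = 4 ∨ n = 6 → f.IsSplitWeil → C Y (Fin n) f.cls
  mixed : ∀ {Y} {κ κ' : Type} [Fintype κ] [DecidableEq κ] [Fintype κ'] [DecidableEq κ'] (z)
    (h : HodgeCls Y κ'), C Y κ z → Fintype.card κ + Fintype.card κ' = betti Y →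
      ∀ (l : Nat.Primes) v, ∃ a : ℚ_[(l : ℕ)], (z l).cup (h.cls l) v = algebraMap _ (F.Ω l) a
  divisor : ∀ {Y l} {s : ℕ} (z : Fun F l Y (Fin 2)), 0 < s → z.IsForm → z.IsTate s 1 →
    ∃ (n : ℕ) (c : Fin n → F.Ω l) (w : Fin n → Fun F l Y (Fin 2)),
      (∀ i, C.mem l Y (Fin 2) (w i)) ∧ ∀ v, z v = ∑ i, c i * w i v
  tate : ∀ {Y} {m : ℕ} (z), C Y (Fin (2 * m)) z → ∀ l, ∃ s, 0 < s ∧ (z l).IsTate s m
  rosati : ∀ {Y} (α : H1 Y), IsPolarization α → ∀ (z), C Y (Fin 2) z → ∀ (l) (n : ℕ)
    (b : Basis (Fin n) ℚ (H1 Y)) (M : Fin n → Fin n → F.Ω l),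
    (∀ j k, ∑ i, M i j * polarAt F l α (b i) (b k) = z l ![b j, b k]) →
      ∃ a : ℚ, 0 ≤ a ∧ ∑ i, ∑ j, M i j * M j i = a

/-- The cycle `z` is numerically equivalent to zero. -/
def Sys.NumTrivial (C : Sys p ν F) {l : Nat.Primes} {Y : RedAV p ν} {κ : Type} [Fintype κ]
    [DecidableEq κ] (z : Fun F l Y κ) : Prop :=
  ∀ (κ' : Type) [Fintype κ'] [DecidableEq κ'] (w : Fun F l Y κ'), C.mem l Y κ' w →
    Fintype.card κ + Fintype.card κ' = betti Y → ∀ v, z.cup w v = 0

/-- The power `m` of the class of the polarization given by `α`. -/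
def powPolar (F : Coef) (l : Nat.Primes) {Y : RedAV p ν} (α : H1 Y) (m : ℕ) :
    Fun F l Y (Fin m × Fin 2) :=
  powE (polarAt F l α) m

/-- `z ∈ H^{2r}(Y)` is primitive for the polarization given by `α`, `dim Y = 2 r + m`: the cup
product of `z` with the power `m + 1` of the class of the polarization is zero. -/
def Fun.IsPrimitive {l : Nat.Primes} {Y : RedAV p ν} (α : H1 Y) {κ : Type} [Fintype κ]
    [DecidableEq κ] (m : ℕ) (z : Fun F l Y κ) : Prop :=
  ∀ v, z.cup (powPolar F l α (m + 1)) v = 0

/-- The product of a function with itself and with a power of the class of the polarization. -/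
def Fun.square {l : Nat.Primes} {Y : RedAV p ν} (α : H1 Y) {r : ℕ} (m : ℕ)
    (z : Fun F l Y (Fin r × Fin 2)) :
    Fun F l Y ((Fin r × Fin 2) ⊕ ((Fin r × Fin 2) ⊕ (Fin m × Fin 2))) :=
  altSum (times z (times z (powPolar F l α m)))

/-- The positivity of the standard conjecture of Hodge type for `z ∈ H^{2r}(Y)`, `dim Y = 2 r + m`:
`(-1)^r z ∪ z ∪ E^m` is a positive rational multiple of the top power `E^{2 r + m}` of the class `E` of
the polarization given by `α` (both up to positive factors that depend only on `r` and `m`). -/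
def Fun.IsPositive {l : Nat.Primes} {Y : RedAV p ν} (α : H1 Y) {r : ℕ} (m : ℕ)
    (z : Fun F l Y (Fin r × Fin 2)) : Prop :=
  ∃ c : ℚ, 0 < c ∧ ∀ v, (-1) ^ r * z.square α m v = c * (powPolar F l α r).square α m v

/-- The standard conjecture of Hodge type for the polarized abelian variety `Y, α` and the primitive
algebraic classes `z` with the property `P`. -/
def Sys.HodgeType (C : Sys p ν F) (l : Nat.Primes) (Y : RedAV p ν) (α : H1 Y)
    (P : ∀ r : ℕ, Fun F l Y (Fin r × Fin 2) → Prop) : Prop :=
  ∀ (r m : ℕ) (z : Fun F l Y (Fin r × Fin 2)), 2 * (2 * r + m) = betti Y →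
    C.mem l Y _ z → P r z → z.IsPrimitive α m → z.IsPositive α m

/-- The ring `A` of algebraic cycles modulo homological equivalence of a variety of dimension `n`,
graded by the codimension, with the degree map and the class `D` of an ample divisor. -/
structure CycleRing where
  A : Type
  [ring : CommRing A]
  [algebra : Algebra ℚ A]
  n : ℕ
  gr : ℕ → Submodule ℚ A
  deg : A →ₗ[ℚ] ℚ
  D : A
  isRing : IsCycleRing n gr deg D

attribute [instance] CycleRing.ring CycleRing.algebra

/-- The cycles of codimension `r`. -/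
def CycleRing.Cod (R : CycleRing) (r : ℕ) (x : R.A) : Prop := x ∈ R.gr r

/-- The product of two cycles. -/
def CycleRing.mul (R : CycleRing) (x y : R.A) : R.A := x * y

/-- The sum of a cycle and of a rational multiple of another one. -/
def CycleRing.comb (R : CycleRing) (c : ℚ) (x y : R.A) : R.A := x + c • y

/-- A variety `X` with the ring of cycles `R` (in some cohomology with coefficients in `F.Ω l`) and an
ample divisor specializes to the abelian variety `Y` with the polarization given by `α`: the map `sp`
is linear, injective and compatible with products, its values are classes of algebraic cycles, and the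
ample divisor is mapped to the class of the polarization. -/
structure Sys.SpecializesTo (C : Sys p ν F) (l : Nat.Primes) (Y : RedAV p ν) (α : H1 Y)
    (R : CycleRing) (sp : ∀ r : ℕ, R.A → Fun F l Y (Fin r × Fin 2)) : Prop where
  dim : 2 * R.n = betti Y
  linear : ∀ r x y, R.Cod r x → R.Cod r y → ∀ c : ℚ,
    sp r (R.comb c x y) = (sp r x).add ((sp r y).mul c)
  injective : ∀ r x, R.Cod r x → (∀ v, sp r x v = 0) → x = 0
  one : sp 0 1 = .const F l Y _ 1
  product : ∀ r s x y, R.Cod r x → R.Cod s y → ∀ v,
    ((2 * r).factorial * (2 * s).factorial : ℕ) * sp (r + s) (R.mul x y) v =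
      (sp r x).cup (sp s y) fun k => v (join r s k)
  cycle : ∀ r x, R.Cod r x → C.mem l Y _ (sp r x)
  divisor : ∀ v, sp 1 R.D v = polarAt F l α (v (0, 0)) (v (0, 1))

end

end Pool.Agent.H395.Cyc
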