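import Mathlib
import Pool.Agent.H395.Cyc.Model
import Pool.Agent.H395.Local.Defs

/-!
# Abelian varieties over finite fields whose exotic Tate classes come from one imaginary quadratic
field: definitions
-/

set_option autoImplicit false

namespace Pool.Agent.H395.Cyc

open NumberField Module Pool.Agent.W495.TA Pool.Agent.TH117.PO Pool.Agent.Q29.HT Pool.Agent.TH170
  Pool.Agent.N202.QR Pool.Agent.Y137.HD

/-- A Weil number of weight `a` in a CM field. -/
structure WeilNum (p a : ℕ) where
  E : Type
  [field : Field E]
  [numberField : NumberField E]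
  [cm : IsCMField E]
  num : E
  integral : IsIntegral ℤ num
  weil : num * IsCMField.complexConj E num = (p : E) ^ a

attribute [instance] WeilNum.field WeilNum.numberField WeilNum.cm

/-- An imaginary quadratic field with an embedding into the complex numbers. -/
structure ImagQuad where
  k : Type
  [field : Field k]
  [numberField : NumberField k]
  [cm : IsCMField k]
  deg : finrank ℚ k = 2
  κ : k →+* ℂ

attribute [instance] ImagQuad.field ImagQuad.numberField ImagQuad.cm

/-- The embeddings of a field into the field of complex numbers. -/
def Emb (E : Type) [Field E] : Type := E →+* ℂ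

/-- The homomorphisms of one field into another. -/
def FHom (k E : Type) [Field k] [Field E] : Type := k →+* E

noncomputable instance (E : Type) [Field E] [NumberField E] : Fintype (Emb E) :=
  (inferInstance : Fintype (E →+* ℂ))

variable {E : Type} [Field E]

/-- The value of an embedding. -/
def Emb.ev (φ : Emb E) (x : E) : ℂ := (show E →+* ℂ from φ) x

/-- The complex conjugate embedding. -/
def Emb.cj (φ : Emb E) : Emb E := ComplexEmbedding.conjugate φ

/-- The automorphism `σ` of the complex numbers after the embedding `φ`. -/
def Emb.mv (σ : ℂ ≃+* ℂ) (φ : Emb E) : Emb E := (σ : ℂ →+* ℂ).comp φ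

/-- The automorphisms of the complex numbers over the imaginary quadratic field. -/
def ImagQuad.Fixes (Q : ImagQuad) (σ : ℂ ≃+* ℂ) : Prop := ∀ x, σ (Q.κ x) = Q.κ x

/-- The embedding `φ` extends the embedding of the imaginary quadratic field. -/
def ImagQuad.Over (Q : ImagQuad) (θ : FHom Q.k E) (φ : Emb E) : Prop := RingHom.comp φ θ = Q.κ

/-- The rational functions with sum zero on the set of the embeddings of `E` over the imaginary
quadratic field `k` are an irreducible representation of the automorphisms of the complex numbers
over `k`. -/
def SumZeroIrreducible [NumberField E] (Q : ImagQuad) (θ : FHom Q.k E) : Prop :=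
  ∀ V : Submodule ℚ (Emb E → ℚ),
    (∀ c ∈ V, (∀ φ, ¬ Q.Over θ φ → c φ = 0) ∧ ∑ φ, c φ = 0) →
    (∀ σ, Q.Fixes σ → ∀ c ∈ V, (fun φ => c (φ.mv σ)) ∈ V) →
      V = ⊥ ∨ ∀ c : Emb E → ℚ, (∀ φ, ¬ Q.Over θ φ → c φ = 0) → ∑ φ, c φ = 0 → c ∈ V

open Classical in
/-- One of the slopes of `π` over `k` dominates the others: there are an identification of the
complex numbers with the algebraic closure of `ℚ_p`, an embedding `z` over `k` and a rational number
`t` such that for the slopes `q w` (the `p`-adic valuations of the numbers `w π`, with value one at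
`p`) the absolute value of `q z - t` is larger than the sum of the absolute values of `q w - t`,
`w ≠ z` over `k`, or for the absolute value of some prime number `l` the absolute value of `q z - t`
is larger than those of `q w - t`. -/
def DominatedOver (p : ℕ) [Fact p.Prime] [NumberField E] (π : E) (Q : ImagQuad)
    (θ : FHom Q.k E) : Prop :=
  ∃ (ν : PadicAlgCl p ≃+* ℂ) (q : Emb E → ℚ) (t : ℚ) (z : Emb E),
    (∀ w, (q w : ℝ) = - Real.logb p ‖ν.symm (w.ev π)‖) ∧ Q.Over θ z ∧
      (∑ w with (Q.Over θ w ∧ w ≠ z), |q w - t| < |q z - t| ∨
        ∃ l : ℕ, l.Prime ∧ q z ≠ t ∧ ∀ w, Q.Over θ w → w ≠ z →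
          padicNorm l (q w - t) < padicNorm l (q z - t))

section family

variable {p a : ℕ} {I : Type}

/-- All positive powers of `x` generate the field. -/
def Generates {E : Type} [Field E] [NumberField E] (x : E) : Prop :=
  ∀ s : ℕ, 0 < s → IntermediateField.adjoin ℚ {x ^ s} = ⊤

/-- The relations: families of integers `n` such that the product of the powers
`(φ (π i)) ^ (n ⟨i, φ⟩)` over all embeddings `φ` of all fields is a power of `p ^ a`. -/
def IsRelation [Fintype I] (W : I → WeilNum p a) (n : (Σ i, Emb (W i).E) → ℤ) : Prop :=
  ∃ r : ℤ, ∏ x, (x.2.ev (W x.1).num) ^ n x = ((p ^ a : ℕ) : ℂ) ^ r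

/-- The difference of the exponents at `φ` and at the complex conjugate embedding. -/
def oddPart {W : I → WeilNum p a} (n : (Σ i, Emb (W i).E) → ℤ) (i : I) (φ : Emb (W i).E) : ℤ :=
  n ⟨i, φ⟩ - n ⟨i, φ.cj⟩

/-- The embeddings of the imaginary quadratic field into the fields of the Weil numbers in `J`. -/
def Embedded (Q : ImagQuad) (J : Set I) (W : I → WeilNum p a) : Type :=
  ∀ i, i ∈ J → FHom Q.k (W i).E

/-- The **exotic relations come from one imaginary quadratic field** `k`: each relation is trivial
outside `J` (the exponents are equal at complex conjugate embeddings), and for `i` in `J` the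
difference of the exponents at `φ` and at the conjugate embedding does not depend on the embedding
`φ` over `k`. -/
def QuadShape [Fintype I] (Q : ImagQuad) (J : Set I) (W : I → WeilNum p a)
    (θ : Embedded Q J W) : Prop :=
  ∀ n, IsRelation W n → (∀ i, i ∉ J → ∀ φ, oddPart n i φ = 0) ∧
    ∀ i (hi : i ∈ J) (φ ψ), Q.Over (θ i hi) φ → Q.Over (θ i hi) ψ → oddPart n i φ = oddPart n i ψ

/-- All positive powers of the Weil numbers `π i` generate the fields `K i`; for `i` outside `J` the
field `K i` has an embedding whose class is of one of the local types; for `i` in `J` the field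
`K i` contains `k`, the functions with sum zero on the embeddings over `k` are irreducible or one
slope over `k` dominates the others, and `K i` is linearly disjoint over `k` from the Galois closures
of the other fields `K j`, `j` in `J`: any two embeddings over `k` are conjugate by an automorphism
over `k` which fixes the embeddings of the other fields. -/
structure QuadTypes [Fintype I] [Fact p.Prime] (Q : ImagQuad) (J : Set I) (W : I → WeilNum p a)
    (θ : Embedded Q J W) : Prop where
  powers : ∀ i, Generates (W i).num
  local_type : ∀ i, i ∉ J → ∃ φ : Emb (W i).E,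
    Local.LocalType p (fun _ => a) (fun i => (W i).num) ⟨i, φ⟩
  over_k : ∀ i (h : i ∈ J), SumZeroIrreducible Q (θ i h) ∨ DominatedOver p (W i).num Q (θ i h)
  alone : ∀ i (h : i ∈ J) (φ ψ), Q.Over (θ i h) φ → Q.Over (θ i h) ψ → ∃ σ, Q.Fixes σ ∧
    φ.mv σ = ψ ∧ ∀ j ∈ J, j ≠ i → ∀ χ : Emb (W j).E, χ.mv σ = χ

variable [Fact p.Prime]

/-- A power of `y` is the image of a power of `x` under an embedding of fields, which is surjective if
`P` holds. -/
def IsPowerOf {E E' : Type} [Field E] [Field E'] (P : Prop) (x : E) (y : E') : Prop :=
  ∃ (θ : E →+* E') (m s : ℕ), (P → Function.Surjective θ) ∧ 0 < m ∧ 0 < s ∧ θ (x ^ m) = y ^ s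

/-- Each simple factor of the abelian variety `Y` over a finite field is supersingular, or some
positive power of its Frobenius endomorphism is the image of a positive power of one of the numbers
`π i` under an embedding of the field `K i` in the CM field of the factor, which is an isomorphism
if `i` is in `J`. In other words `Y` is, over an algebraic closure, isogenous to the product of a
supersingular abelian variety and of powers of the abelian varieties with the Weil numbers `π i`,
and the algebras of endomorphisms of those with `i` in `J` are commutative. -/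
def OfNumbersOn {ν : PadicAlgCl p ≃+* ℂ} (J : Set I) (W : I → WeilNum p a) (Y : RedAV p ν) : Prop :=
  ∀ k : Y.X.I, GS.IsSupersingular p Y.a (Y.π k) ∨ ∃ i, IsPowerOf (i ∈ J) (W i).num (Y.π k)

/-- The standard conjecture of Hodge type, modulo numerical equivalence, for the ring of algebraic
cycles modulo homological equivalence: for `2 j + m = n` and every primitive `a` of codimension `j`,
`D ^ (m + 1) * a = 0`, which is not numerically equivalent to zero, the number
`(-1) ^ j * deg (a * a * D ^ m)` is positive. -/
def CycleRing.HodgeNum (R : CycleRing) : Prop :=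
  ∀ (j m : ℕ) (x), 2 * j + m = R.n → R.Cod j x → R.mul (R.D ^ (m + 1)) x = 0 →
    (∃ y, R.Cod (R.n - j) y ∧ R.deg (R.mul x y) ≠ 0) →
      0 < (-1) ^ j * R.deg (R.mul x (R.mul x (R.D ^ m)))

/-- The standard conjecture of Hodge type, modulo numerical equivalence, for all abelian varieties
`Y` over an algebraic closure of the field with `p` elements which are isogenous to products of
powers of the abelian varieties with the Weil numbers `π i` and of supersingular ones
(`OfNumbersOn`), with all polarizations compatible with the complex multiplications of the lifting,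
and for **all** varieties over arbitrary fields of characteristic `p` which specialize to them. -/
def NumPositive (ν : PadicAlgCl p ≃+* ℂ) (J : Set I) (W : I → WeilNum p a) : Prop :=
  ∀ (F : Coef) (C : Sys p ν F), IsTheory C → ∀ (l : Nat.Primes) (Y : RedAV p ν), OfNumbersOn J W Y →
    ∀ α : H1 Y, IsPolarization α → C.HodgeType l Y α (fun _ z => ¬ C.NumTrivial z) ∧
      ∀ R sp, C.SpecializesTo l Y α R sp → R.HodgeNum

/-- The standard conjecture of Hodge type for `l`-adic cohomology, `l` in the set `S` of prime
numbers, and the coincidence of numerical and `l`-adic homological equivalence, for the same abelian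
varieties `Y` and **all** varieties which specialize to them (for the coincidence of the two
equivalence relations we assume the conjecture `A` of Lefschetz type, `LefschetzA`, a theorem for
abelian varieties). -/
def HomPositive (ν : PadicAlgCl p ≃+* ℂ) (S : Set Nat.Primes) (J : Set I) (W : I → WeilNum p a) :
    Prop :=
  ∀ (F : Coef) (C : Sys p ν F), IsTheory C → ∀ l ∈ S, ∀ Y : RedAV p ν, OfNumbersOn J W Y →
    ∀ α : H1 Y, IsPolarization α → C.HodgeType l Y α (fun _ z => ∃ v, z v ≠ 0) ∧
      ∀ R sp, C.SpecializesTo l Y α R sp → HodgePositive R.n R.gr R.deg R.D ∧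
        (LefschetzA R.n R.gr R.D → NumEqHom R.n R.gr R.deg)

end family

/-- The embeddings `x` and `y` are neither equal nor complex conjugate. -/
def Apart (x y : Emb E) : Prop := x ≠ y ∧ x ≠ y.cj

/-- The automorphisms of the complex numbers act triply transitively on the pairs of complex
conjugate embeddings of the CM field `E`, that is, on the embeddings of its maximal totally real
subfield. -/
def TriplyTransitive (E : Type) [Field E] : Prop :=
  ∀ x y : Fin 3 → Emb E, (∀ i j, i ≠ j → Apart (x i) (x j)) →
    (∀ i j, i ≠ j → Apart (y i) (y j)) → ∃ σ, ∀ i, (x i).mv σ = y i ∨ (x i).mv σ = (y i).cj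

/-- The prime numbers which do not split in the imaginary quadratic field. -/
def ImagQuad.nonsplit (Q : ImagQuad) : Set Nat.Primes :=
  {l | ¬ Nonempty (FHom Q.k ℚ_[(l : ℕ)])}

/-- The functions with sum zero on the embeddings over an imaginary quadratic field `k` are
irreducible if `[E : k]` is a prime number, and if the automorphisms over `k` act doubly transitively
on the embeddings over `k`. -/
def OverCriteria : Prop :=
  ∀ (Q : ImagQuad) (E : Type) [Field E] [NumberField E] (θ : FHom Q.k E),
    ((∃ r : ℕ, r.Prime ∧ finrank ℚ E = 2 * r) ∨
      ∀ φ₁ φ₂ ψ₁ ψ₂, Q.Over θ φ₁ → Q.Over θ φ₂ → Q.Over θ ψ₁ → Q.Over θ ψ₂ → φ₁ ≠ φ₂ → ψ₁ ≠ ψ₂ →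
        ∃ σ, Q.Fixes σ ∧ φ₁.mv σ = ψ₁ ∧ φ₂.mv σ = ψ₂) → SumZeroIrreducible Q θ

end Pool.Agent.H395.Cyc
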