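import Mathlib
import Pool.Agent.H395.Cyc.Model
import Pool.Graph.R_seed8.TH117.PO.Span

/-!
# The classes of algebraic cycles on abelian varieties over finite fields: comparison of the models
-/

set_option autoImplicit false
set_option linter.unusedSectionVars false
set_option linter.unusedVariables false

namespace Pool.Agent.H395.Cyc

open NumberField Pool.Agent.H204R3.CM Pool.Agent.W547.KB Pool.Agent.W547.LD Pool.Agent.W547.HR
  Pool.Agent.W495.TA Pool.Agent.TH117.PO Pool.Agent.Y137.HD Module Pool.Agent.N202.QR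
  Pool.Agent.Q29.HT
open scoped TensorProduct

noncomputable section

variable {p : ℕ} [Fact p.Prime] {ν : PadicAlgCl p ≃+* ℂ} {F : Coef}

/-- The set of families of alternating forms. -/
def toC (C : Sys p ν F) : (Y : RedAV p ν) → (κ : Type) → FCl F.Ω Y κ → Prop :=
  fun Y κ f => C Y κ fun l => res (f l)

theorem ext_res' {Ω : Type} [Field Ω] [CharZero Ω] {Y : RedAV p ν} {κ : Type}
    {f g : (TM Ω Y) [⋀^κ]→ₗ[Ω] Ω} (h : ∀ v, res f v = res g v) : f = g := by
  rcases finite_or_infinite κ with hκ | hκ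
  · exact ext_res h
  · have h0 : ∀ f : (TM Ω Y) [⋀^κ]→ₗ[Ω] Ω, ∀ v, f v = 0 := by
      intro f v
      refine f.map_linearDependent v fun hli => ?_
      have h1 := hli.finite
      exact hκ.not_finite h1
    ext v
    rw [h0 f v, h0 g v]

variable {C : Sys p ν F} (hC : IsTheory C)

include hC in
theorem exists_lift {Y : RedAV p ν} {κ : Type} {z : Cls F Y κ} (hz : C Y κ z) :
    ∃ f : FCl F.Ω Y κ, toC C Y κ f ∧ ∀ l, z l = res (f l) := by
  choose f hf using hC.form z hz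
  refine ⟨f, ?_, hf⟩
  change C Y κ fun l => res (f l)
  have h1 : (fun l => res (f l) : Cls F Y κ) = z := funext fun l => (hf l).symm
  rw [h1]
  exact hz

include hC in
theorem mem_iff {l : Nat.Primes} {Y : RedAV p ν} {κ : Type}
    (f : (TM (F.Ω l) Y) [⋀^κ]→ₗ[F.Ω l] F.Ω l) :
    atPrime (toC C) l Y κ f ↔ C.mem l Y κ (res f) := by
  constructor
  · rintro ⟨z, hz, rfl⟩
    exact ⟨fun l => res (z l), hz, rfl⟩
  · rintro ⟨w, hw, hwl⟩
    obtain ⟨g, hg, hg'⟩ := exists_lift hC hw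
    refine ⟨g, hg, ext_res' fun v => ?_⟩
    rw [← hg' l, hwl]

/-- The vector as an element of the product of the fields. -/
def toX {Y : RedAV p ν} (x : H1 Y) : Y.X.H1 := x

theorem res_iterate {Ω : Type} [Field Ω] [CharZero Ω] (Y : RedAV p ν) (s : ℕ) (x : Y.X.H1) :
    (Pool.Agent.W495.TA.F Ω Y ^ s) ((1 : Ω) ⊗ₜ[ℚ] x) = (1 : Ω) ⊗ₜ[ℚ] toX ((frob Y)^[s] x) := by
  induction s generalizing x with
  | zero => rfl
  | succ s ih =>
    rw [pow_succ, Module.End.mul_apply]
    have h1 : Pool.Agent.W495.TA.F Ω Y ((1 : Ω) ⊗ₜ[ℚ] x) = (1 : Ω) ⊗ₜ[ℚ] toX (frob Y x) := by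
      unfold Pool.Agent.W495.TA.F
      rw [LinearMap.baseChange_tmul]
      rfl
    rw [h1, ih]
    rfl

theorem isTate_iff {l : Nat.Primes} {Y : RedAV p ν} {κ : Type} (s m : ℕ)
    (f : (TM (F.Ω l) Y) [⋀^κ]→ₗ[F.Ω l] F.Ω l) :
    IsTateClass (F.Ω l) Y s m f ↔ Fun.IsTate (F := F) (l := l) (Y := Y) (κ := κ) s m (res f) := by
  constructor
  · intro h v
    have h1 := h fun k => (1 : F.Ω l) ⊗ₜ[ℚ] toX (v k)
    have h2 : (fun k => (Pool.Agent.W495.TA.F (F.Ω l) Y ^ s) ((1 : F.Ω l) ⊗ₜ[ℚ] toX (v k))) =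
        fun k => (1 : F.Ω l) ⊗ₜ[ℚ] toX ((frob Y)^[s] (v k)) :=
      funext fun k => res_iterate Y s (v k)
    rw [h2] at h1
    exact h1
  · intro h
    have h1 : f.compLinearMap (Pool.Agent.W495.TA.F (F.Ω l) Y ^ s) =
        (((p : F.Ω l) ^ Y.a) ^ (m * s)) • f := by
      refine ext_res' fun v => ?_
      have h2 := h v
      have h3 : (fun k => (Pool.Agent.W495.TA.F (F.Ω l) Y ^ s) ((1 : F.Ω l) ⊗ₜ[ℚ] toX (v k))) =
          fun k => (1 : F.Ω l) ⊗ₜ[ℚ] toX ((frob Y)^[s] (v k)) :=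
        funext fun k => res_iterate Y s (v k)
      change f (fun k => (Pool.Agent.W495.TA.F (F.Ω l) Y ^ s) ((1 : F.Ω l) ⊗ₜ[ℚ] toX (v k))) =
        ((p : F.Ω l) ^ Y.a) ^ (m * s) * f fun k => (1 : F.Ω l) ⊗ₜ[ℚ] toX (v k)
      rw [h3]
      exact h2
    intro v
    have h2 := congrArg (fun g => g v) h1
    exact h2

/-- A homomorphism of the liftings. -/
def toHom {Y Z : RedAV p ν} (h : Y.X.H1 →ₗ[ℚ] Z.X.H1) (hh : IsHom Y.X Z.X h) : LiftHom Y Z :=
  ⟨h, hh⟩

/-- A rational Hodge class. -/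
def toHodge {Y : RedAV p ν} {κ : Type} (f : Y.X.H1 [⋀^κ]→ₗ[ℚ] ℚ) (hf : IsHodge Y.X.per f) :
    HodgeCls Y κ :=
  ⟨f, hf⟩

theorem toWeil {Y : RedAV p ν} {n : ℕ} {f : Y.X.H1 [⋀^Fin n]→ₗ[ℚ] ℚ}
    (hf : IsSplitWeilClass Y.X n f) : (toHodge f hf.2.1).IsSplitWeil := by
  obtain ⟨h1, h2, d, h, hd, hh, h3, h4, E, W, h5, h6, h7, h8, h9⟩ := hf
  exact ⟨h1, d, toHom h hh, hd, h3, h4, E, W, h5, h6, h7, h8, h9⟩

include hC in
theorem isFamCup : IsFamCup F.Ω (toC C) where
  reindex {Y κ κ'} e f hf := hC.reindex e _ hf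
  unit {Y κ _} f hf := by
    change C Y κ _
    have h1 : (fun l => res (f l) : Cls F Y κ) = fun l => Fun.const F l Y κ 1 :=
      funext fun l => funext fun v => hf l _
    rw [h1]
    exact hC.unit Y κ
  cup {Y κ κ' _ _ _ _} f g hf hg h hh := by
    change C Y _ _
    have h1 : (fun l => res (h l) : Cls F Y (κ ⊕ κ')) =
        fun l => Fun.cup (F := F) (l := l) (Y := Y) (res (f l)) (res (g l)) :=
      funext fun l => funext fun v => hh l _
    rw [h1]
    exact hC.cup _ _ hf hg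

include hC in
theorem isFam : IsFam F.Ω (toC C) where
  toIsFamCup := isFamCup hC
  pull {Y Z κ} h hh f hf := by
    change C Y κ _
    have h1 : (fun l => res ((f l).compLinearMap (h.baseChange (F.Ω l))) : Cls F Y κ) =
        fun l => Fun.pull (F := F) (l := l) (toHom h hh) (res (f l)) :=
      funext fun l => funext fun v => res_pull h (f l) v
    rw [h1]
    exact hC.pull (toHom h hh) _ hf
  top {Y κ} f hκ hf v := by
    obtain ⟨a, ha⟩ := hC.top _ hκ hf v
    exact ⟨a, ha⟩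
  hodge {Y} f hf g hg := by
    change C Y _ _
    have h1 : (fun l => res (g l) : Cls F Y (Fin 2)) =
        HodgeCls.cls (F := F) (toHodge f hf) :=
      funext fun l => funext fun v => hg l v
    rw [h1]
    exact hC.hodge _

include hC in
theorem isLinear (l : Nat.Primes) : IsLinearSystem (F.Ω l) (atPrime (toC C) l) where
  zero Y κ := (mem_iff hC _).2 ⟨_, hC.zero Y κ, rfl⟩
  add {Y κ} f g hf hg := by
    obtain ⟨z, hz, hz'⟩ := (mem_iff hC _).1 hf
    obtain ⟨w, hw, hw'⟩ := (mem_iff hC _).1 hg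
    refine (mem_iff hC _).2 ⟨_, hC.add z w hz hw, ?_⟩
    funext v
    change z l v + w l v = res f v + res g v
    rw [hz', hw']
  smul {Y κ} a f hf := by
    obtain ⟨z, hz, hz'⟩ := (mem_iff hC _).1 hf
    refine (mem_iff hC _).2 ⟨_, hC.smul a z hz, ?_⟩
    funext v
    change (a : F.Ω l) * z l v = (a : F.Ω l) * res f v
    rw [hz']
  reindex {Y κ κ'} e f hf := by
    obtain ⟨z, hz, hz'⟩ := (mem_iff hC _).1 hf
    refine (mem_iff hC _).2 ⟨_, hC.reindex e z hz, ?_⟩
    funext v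
    change z l (fun k => v (e k)) = res f fun k => v (e k)
    rw [hz']
  unit {Y κ _} f hf := (mem_iff hC _).2 ⟨_, hC.unit Y κ, funext fun v => (hf _).symm⟩
  cup {Y κ κ' _ _ _ _} f g hf hg h hh := by
    obtain ⟨z, hz, hz'⟩ := (mem_iff hC _).1 hf
    obtain ⟨w, hw, hw'⟩ := (mem_iff hC _).1 hg
    refine (mem_iff hC _).2 ⟨_, hC.cup z w hz hw, ?_⟩
    funext v
    change altSum (times (z l) (w l)) v = h _
    rw [hh, hz', hw']
    rfl

include hC in
theorem isStable (l : Nat.Primes) : IsStableSystem (F.Ω l) (atPrime (toC C) l) where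
  pull {Y Z κ} h hh f hf := by
    obtain ⟨z, hz, hz'⟩ := (mem_iff hC _).1 hf
    refine (mem_iff hC _).2 ⟨_, hC.pull (toHom h hh) z hz, ?_⟩
    funext v
    rw [res_pull]
    change z l (fun k => h (v k)) = _
    rw [hz']
  push {Y Y' Z κ κ'} h h' hh hh' hb b f g hf hg := by
    obtain ⟨z, hz, hz'⟩ := (mem_iff hC _).1 hf
    refine (mem_iff hC _).2 ⟨_, hC.push (toHom h hh) (toHom h' hh') hb b z hz, ?_⟩
    funext v
    rw [hg]
    change z l (Sum.elim (fun k => h (v k)) fun k => h' (b k)) = _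
    rw [hz']
    rfl
  top {Y κ} f hκ hf v := by
    obtain ⟨z, hz, hz'⟩ := (mem_iff hC _).1 hf
    obtain ⟨a, ha⟩ := hC.top z hκ hz v
    exact ⟨a, by rw [← hz', ha l]⟩

/-- The restriction as a linear map. -/
def resL (Ω : Type) [Field Ω] [CharZero Ω] (Y : RedAV p ν) (κ : Type) :
    ((TM Ω Y) [⋀^κ]→ₗ[Ω] Ω) →ₗ[Ω] ((κ → Y.X.H1) → Ω) where
  toFun f := res f
  map_add' _ _ := rfl
  map_smul' _ _ := rfl

include hC in
theorem isCycle (l : Nat.Primes) : IsCycleSystem (F.Ω l) (atPrime (toC C) l) where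
  toIsLinearSystem := isLinear hC l
  toIsStableSystem := isStable hC l
  divisor {Y s} f hs hf := by
    obtain ⟨n, c, w, hw, h1⟩ := hC.divisor (l := l) (res f : Fun F l Y (Fin 2)) hs ⟨f, rfl⟩
      ((isTate_iff s 1 f).1 hf)
    have h2 : ∀ i, ∃ g : (TM (F.Ω l) Y) [⋀^Fin 2]→ₗ[F.Ω l] F.Ω l,
        atPrime (toC C) l Y (Fin 2) g ∧ w i = res g := by
      intro i
      obtain ⟨u, hu, hu'⟩ := hw i
      obtain ⟨g, hg, hg'⟩ := exists_lift hC hu
      exact ⟨g l, ⟨g, hg, rfl⟩, by rw [← hu', hg' l]⟩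
    choose g hg hg' using h2
    have h3 : f = ∑ i, c i • g i := by
      refine ext_res' fun v => ?_
      have h4 : resL (F.Ω l) Y (Fin 2) (∑ i, c i • g i) = ∑ i, c i • resL (F.Ω l) Y (Fin 2) (g i) := by
        rw [map_sum]
        exact Finset.sum_congr rfl fun i _ => map_smul _ _ _
      have h5 : res (∑ i, c i • g i) v = ∑ i, c i * res (g i) v := by
        have h6 := congrFun h4 v
        rw [Finset.sum_apply] at h6
        exact h6
      rw [h5]
      have h7 := h1 v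
      rw [show res f v = ∑ i, c i * w i v from h7]
      exact Finset.sum_congr rfl fun i _ => by rw [hg' i]
    rw [h3]
    exact Submodule.sum_mem _ fun i _ => Submodule.smul_mem _ _ (Submodule.subset_span (hg i))
  hodge {Y} f hf g hg := (mem_iff hC _).2 ⟨_, hC.hodge (toHodge f hf),
    funext fun v => (hg v).symm⟩
  weil {Y n} hn f hf g hg := (mem_iff hC _).2 ⟨_, hC.weil (toHodge f hf.2.1) hn (toWeil hf),
    funext fun v => (hg v).symm⟩

include hC in
theorem isCompatible : IsCompatible F.Ω (toC C) where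
  toIsFam := isFam hC
  cycle l := isCycle hC l
  mixed {Y κ κ' _ _ _ _} z h hz hh hκ l v := by
    obtain ⟨a, ha⟩ := hC.mixed _ (toHodge h hh) hz hκ l v
    exact ⟨a, ha⟩

include hC in
theorem areTate (l : Nat.Primes) : AreTate (F.Ω l) (atPrime (toC C) l) := by
  intro Y m f hf
  obtain ⟨z, hz, hz'⟩ := (mem_iff hC _).1 hf
  obtain ⟨s, hs, h⟩ := hC.tate z hz l
  refine ⟨s, hs, (isTate_iff s m f).2 ?_⟩
  rw [← hz']
  exact h

include hC in
theorem isRosati (l : Nat.Primes) : IsRosatiPositive (F.Ω l) (atPrime (toC C) l) := by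
  classical
  intro Y α hα θ hθ u hu T hT
  obtain ⟨z, hz, hz'⟩ := (mem_iff hC _).1 hu
  let b : Basis (Fin (finrank ℚ Y.X.H1)) ℚ Y.X.H1 := finBasis ℚ Y.X.H1
  let b' := b.baseChange (F.Ω l)
  have hb' : ∀ j, b' j = (1 : F.Ω l) ⊗ₜ[ℚ] b j := fun j => Basis.baseChange_apply _ _ _
  have h1 := hC.rosati (Y := Y) α (fun i φ => hα i φ.1 φ.2) z hz l _ b (fun i j => b'.repr (T (b' j)) i) (by
    intro j k
    have h2 : T (b' j) = ∑ i, b'.repr (T (b' j)) i • b' i := (b'.sum_repr _).symm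
    have h3 : θ ![T (b' j), b' k] = u ![b' j, b' k] := hT _ _
    have h4 : u ![b' j, b' k] = z l ![b j, b k] := by
      rw [hz', hb', hb']
      change u _ = u _
      congr 1
      funext i
      fin_cases i <;> rfl
    have h5 : θ ![T (b' j), b' k] = ∑ i, b'.repr (T (b' j)) i * θ ![b' i, b' k] := by
      have h6 : ∀ x, θ ![x, b' k] = (θ.toMultilinearMap.toLinearMap ![0, b' k] 0) x := by
        intro x
        change θ _ = θ (Function.update ![0, b' k] 0 x)
        congr 1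
        funext i
        fin_cases i <;> rfl
      rw [h6, h2, map_sum]
      refine Finset.sum_congr rfl fun i _ => ?_
      rw [map_smul, smul_eq_mul, ← h6, ← h2]
    have h7 : ∀ i, θ ![b' i, b' k] = polarAt F l (α : H1 Y) (b i) (b k) := by
      intro i
      have h8 := hθ (b i) (b k)
      rw [hb', hb']
      change _ = ((riemannForm Y.X α (b i) (b k) : ℚ) : F.Ω l)
      rw [← h8]
      change θ _ = θ _
      congr 1
      funext i
      fin_cases i <;> rfl
    rw [h5, h4] at h3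
    change ∑ i, _ * polarAt F l (α : H1 Y) (b i) (b k) = z l ![b j, b k]
    rw [← h3]
    exact Finset.sum_congr rfl fun i _ => by rw [h7])
  obtain ⟨a, ha, h2⟩ := h1
  refine ⟨a, ha, ?_⟩
  rw [← h2, LinearMap.trace_eq_matrix_trace _ b', LinearMap.toMatrix_comp b' b' b', Matrix.trace]
  refine Finset.sum_congr rfl fun i _ => ?_
  rw [Matrix.diag_apply, Matrix.mul_apply]
  refine Finset.sum_congr rfl fun j _ => ?_
  rw [LinearMap.toMatrix_apply, LinearMap.toMatrix_apply]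

end

end Pool.Agent.H395.Cyc
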