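import Mathlib
import Pool.Agent.H395.Cyc.Stm
import Pool.Agent.H395.Cyc.Bridge
import Pool.Agent.H395.Exo.Single

/-!
# Abelian varieties over finite fields whose exotic Tate classes come from one imaginary quadratic
field: the theorems
-/

set_option autoImplicit false
set_option linter.unusedSectionVars false
set_option linter.unusedVariables false

namespace Pool.Agent.H395.Cyc

open NumberField Module Pool.Agent.W495.TA Pool.Agent.TH117.PO Pool.Agent.Q29.HT Pool.Agent.TH170
  Pool.Agent.N202.QR Pool.Agent.Y137.HD Pool.Agent.W547.HR Pool.Agent.TH127.SC Pool.Agent.TH117.BL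

noncomputable section

variable {p : ℕ} [hp : Fact p.Prime] {ν : PadicAlgCl p ≃+* ℂ} {F : Coef} {C : Sys p ν F}

section spec

variable (hC : IsTheory C) {l : Nat.Primes} {Y : RedAV p ν} {α : H1 Y} {R : CycleRing}
  {sp : ∀ r : ℕ, R.A → Fun F l Y (Fin r × Fin 2)}

include hC in
theorem exists_form {κ : Type} {z : Fun F l Y κ} (hz : C.mem l Y κ z) :
    ∃ f : (TM (F.Ω l) Y) [⋀^κ]→ₗ[F.Ω l] F.Ω l, atPrime (toC C) l Y κ f ∧ z = res f := by
  obtain ⟨w, hw, rfl⟩ := hz
  obtain ⟨f, hf, hf'⟩ := exists_lift hC hw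
  exact ⟨f l, ⟨f, hf, rfl⟩, hf' l⟩

include hC in
theorem exists_specializes (hS : C.SpecializesTo l Y α R sp) :
    ∃ sp' : ∀ r : ℕ, R.A → Form (F.Ω l) Y r,
      Specializes (atPrime (toC C) l) R.n R.gr R.D Y α sp' := by
  classical
  choose f hf hf' using fun r a ha => exists_form hC (hS.cycle r a ha)
  let sp' : ∀ r : ℕ, R.A → Form (F.Ω l) Y r := fun r a =>
    if ha : a ∈ R.gr r then f r a ha else (0 : (TM (F.Ω l) Y) [⋀^Fin r × Fin 2]→ₗ[F.Ω l] F.Ω l)
  have hval : ∀ r a, a ∈ R.gr r → ∀ v, (sp' r a).val v = sp r a v := by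
    intro r a ha v
    have h1 : sp' r a = f r a ha := dif_pos ha
    rw [h1]
    exact (congrFun (hf' r a ha) v).symm
  have hval' : ∀ r a, a ∈ R.gr r → (sp' r a).val = sp r a := fun r a ha =>
    funext fun v => hval r a ha v
  refine ⟨sp', ⟨hS.dim, ?_, ?_, ?_, ?_, ?_, ?_, ?_⟩⟩
  · intro r a ha b hb v
    rw [hval r _ (add_mem ha hb), hval r a ha, hval r b hb]
    have h1 := congrFun (hS.linear r a b ha hb 1) v
    have h2 : R.comb 1 a b = a + b := by
      unfold CycleRing.comb
      rw [one_smul]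
    rw [h2] at h1
    refine h1.trans ?_
    change sp r a v + ((1 : ℚ) : F.Ω l) * sp r b v = _
    rw [Rat.cast_one, one_mul]
  · intro r c a ha v
    rw [hval r _ (Submodule.smul_mem _ c ha), hval r a ha]
    have h0 := congrFun (hS.linear r 0 0 (Submodule.zero_mem _) (Submodule.zero_mem _) 1) v
    have h00 : R.comb 1 0 0 = 0 := by
      unfold CycleRing.comb
      rw [smul_zero, add_zero]
    rw [h00] at h0
    change sp r 0 v = sp r 0 v + ((1 : ℚ) : F.Ω l) * sp r 0 v at h0
    rw [Rat.cast_one, one_mul, left_eq_add] at h0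
    have h1 := congrFun (hS.linear r 0 a (Submodule.zero_mem _) ha c) v
    have h2 : R.comb c 0 a = c • a := by
      unfold CycleRing.comb
      rw [zero_add]
    rw [h2] at h1
    refine h1.trans ?_
    change sp r 0 v + (c : F.Ω l) * sp r a v = _
    rw [h0, zero_add]
  · intro r a ha h
    exact hS.injective r a ha fun v => by rw [← hval r a ha]; exact h v
  · intro v
    rw [hval 0 1 R.isRing.one_mem]
    exact congrFun hS.one v
  · intro r s a ha b hb v
    rw [hval _ _ (R.isRing.mul_mem ha hb), hval' r a ha, hval' s b hb]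
    exact hS.product r s a b ha hb v
  · intro r a ha
    have h1 : sp' r a = f r a ha := dif_pos ha
    rw [h1]
    exact hf r a ha
  · intro w
    rw [hval 1 _ R.isRing.divisor]
    exact hS.divisor w

include hC in
theorem numTrivial_of {κ : Type} [Fintype κ] [DecidableEq κ]
    {f : (TM (F.Ω l) Y) [⋀^κ]→ₗ[F.Ω l] F.Ω l}
    (h : IsNumTrivial (F.Ω l) (atPrime (toC C) l) f) :
    C.NumTrivial (l := l) (Y := Y) (κ := κ) (res f) := by
  intro κ' _ _ w hw hκ v
  obtain ⟨g, hg, rfl⟩ := exists_form hC hw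
  exact h κ' g hg hκ v

end spec

variable {a : ℕ} {I : Type}

theorem ofNumbersOn_iff {J : Set I} {W : I → WeilNum p a} {Y : RedAV p ν} (hY : OfNumbersOn J W Y) :
    Exo.OfNumbersOn J (fun i => (W i).num) Y := by
  intro k
  rcases hY k with h | ⟨i, θ, m, s, h⟩
  · exact Or.inl h
  · exact Or.inr ⟨i, θ, m, s, h⟩

theorem numPositive_iff {J : Set I} {W : I → WeilNum p a}
    (h : Exo.NumPositiveForNumbers ν J (fun i => (W i).num)) : NumPositive ν J W := by
  intro F C hC l Y hY α hα
  obtain ⟨h1, h2⟩ := h F.Ω (toC C) (isCompatible hC) l (isRosati hC l) (areTate hC l) Y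
    (ofNumbersOn_iff hY) α (fun i φ hφ => hα i ⟨φ, hφ⟩)
  refine ⟨fun r m z hrm hz hnt hprim => ?_, fun R sp hS => ?_⟩
  · obtain ⟨f, hf, rfl⟩ := exists_form hC hz
    exact h1 r m hrm f hf (fun h3 => hnt (numTrivial_of hC h3)) hprim
  · obtain ⟨sp', hsp'⟩ := exists_specializes hC hS
    exact fun j m x hjm hx hp hy => h2 R.A R.n R.gr R.deg R.D sp' hsp' R.isRing j m hjm x hx hp hy

theorem homPositive_iff {S : Set Nat.Primes} {J : Set I} {W : I → WeilNum p a}
    (h : Exo.HomPositiveForNumbers ν S J (fun i => (W i).num)) : HomPositive ν S J W := by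
  intro F C hC l hl Y hY α hα
  obtain ⟨h1, h2⟩ := h F.Ω (toC C) (isCompatible hC) l hl (isRosati hC l) (areTate hC l) Y
    (ofNumbersOn_iff hY) α (fun i φ hφ => hα i ⟨φ, hφ⟩)
  refine ⟨fun r m z hrm hz hz0 hprim => ?_, fun R sp hS => ?_⟩
  · obtain ⟨f, hf, rfl⟩ := exists_form hC hz
    obtain ⟨v, hv⟩ := hz0
    exact h1 r m hrm f hf (fun h3 => hv (by rw [h3]; rfl)) hprim
  · obtain ⟨sp', hsp'⟩ := exists_specializes hC hS
    exact h2 R.A R.n R.gr R.deg R.D sp' hsp' R.isRing

theorem over_iff {Q : ImagQuad} {E : Type} [Field E] (θ : FHom Q.k E) (φ : E →+* ℂ) :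
    Q.Over θ φ ↔ φ.comp (θ : Q.k →+* E) = Q.κ := Iff.rfl

theorem shape_iff [Fintype I] {Q : ImagQuad} {J : Set I} {W : I → WeilNum p a}
    {θ : Embedded Q J W} :
    QuadShape Q J W θ ↔ Exo.QuadShape (p ^ a) (fun i => (W i).num) Q.κ J θ := by
  constructor
  · intro h r n hn
    obtain ⟨h1, h2⟩ := h n ⟨r, hn⟩
    exact ⟨fun i hi φ => sub_eq_zero.1 (h1 i hi φ), fun i hi φ ψ hφ hψ => h2 i hi φ ψ hφ hψ⟩
  · rintro h n ⟨r, hn⟩
    obtain ⟨h1, h2⟩ := h r n hn
    exact ⟨fun i hi φ => sub_eq_zero.2 (h1 i hi φ), fun i hi φ ψ hφ hψ => h2 i hi φ ψ hφ hψ⟩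

theorem types_iff [Fintype I] {Q : ImagQuad} {J : Set I} {W : I → WeilNum p a}
    {θ : Embedded Q J W} (h : QuadTypes Q J W θ) :
    Exo.QuadTypes p (fun _ => a) (fun i => (W i).num) Q.κ J θ where
  powers := h.powers
  local_type := h.local_type
  over_k := h.over_k
  alone := h.alone

theorem shape_of [Fintype I] {Q : ImagQuad} {J : Set I} {W : I → WeilNum p a}
    {θ : Embedded Q J W} (h : QuadTypes Q J W θ) : QuadShape Q J W θ :=
  shape_iff.2 (Exo.shape_of_types Q.deg (fun i => (W i).integral) (fun i => (W i).weil)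
    (types_iff h))

theorem num_of [Fintype I] (ha : 0 < a) {Q : ImagQuad} {J : Set I} {W : I → WeilNum p a}
    {θ : Embedded Q J W} (h : QuadShape Q J W θ) : NumPositive ν J W :=
  numPositive_iff (Exo.numPositive_of_shape ha Q.deg (fun i => (W i).weil) (shape_iff.1 h))

theorem hom_of [Fintype I] (ha : 0 < a) {Q : ImagQuad} {J : Set I} {W : I → WeilNum p a}
    {θ : Embedded Q J W} (h : QuadShape Q J W θ) :
    HomPositive ν {l | J = ∅ ∨ l ∈ Q.nonsplit} J W :=
  homPositive_iff (Exo.homPositive_of_shape ha Q.deg (fun i => (W i).weil) (shape_iff.1 h))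

theorem criteria : OverCriteria := by
  intro Q E _ _ θ h
  rcases h with ⟨r, hr, hE⟩ | h
  · exact Exo.sumZero_of_prime Q.κ θ Q.deg hr hE
  · exact Exo.sumZero_of_double Q.κ θ h

/-- A single triply transitive field without imaginary quadratic subfields. -/
theorem single_none (ha : 0 < a) (w : WeilNum p a) (h3 : TriplyTransitive w.E)
    (hE : 6 ≤ finrank ℚ w.E)
    (hpow : Generates w.num)
    (hno : ∀ Q : ImagQuad, IsEmpty (FHom Q.k w.E)) :
    NumPositive ν ∅ (fun _ : Unit => w) ∧ HomPositive ν Set.univ ∅ (fun _ : Unit => w) := by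
  classical
  have hno' : ∀ F : IntermediateField ℚ w.E, finrank ℚ F = 2 → IsTotallyReal F := by
    intro F hF2
    by_contra hF
    have hTC : IsTotallyComplex F := ⟨fun v => by
      rw [InfinitePlace.isComplex_iff, ComplexEmbedding.isReal_iff]
      exact conj_ne_of_nonReal hF _⟩
    have hq : Algebra.IsQuadraticExtension ℚ F := ⟨hF2⟩
    have hcm : IsCMField F := IsCMField.ofCMExtension ℚ F
    obtain ⟨κ⟩ : Nonempty (F →+* ℂ) := inferInstance
    exact (hno ⟨F, hF2, κ⟩).false (algebraMap F w.E)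
  obtain ⟨κ⟩ : Nonempty ((kp p).E →+* ℂ) := inferInstance
  have hQ : Exo.QuadTypes (K := fun _ : Unit => w.E) p (fun _ => a) (fun _ => w.num) κ ∅
      (fun i hi => absurd hi (Set.notMem_empty i)) := by
    refine ⟨fun _ => hpow, fun i _ => ?_, fun i hi => absurd hi (Set.notMem_empty i),
      fun i hi => absurd hi (Set.notMem_empty i)⟩
    obtain ⟨φ⟩ : Nonempty (w.E →+* ℂ) := inferInstance
    refine ⟨φ, Or.inr (Or.inr (Or.inr (Or.inr (Or.inr ?_))))⟩
    exact Exo.irreducibleType_of_flips (fun x y hxy => Exo.exists_flip h3 hE hno' hxy) _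
  refine ⟨numPositive_iff (W := fun _ : Unit => w) (Exo.numPositive_of_types ha (finrank_kp p)
      (fun _ => w.integral) (fun _ => w.weil) hQ),
    homPositive_iff (W := fun _ : Unit => w) (Exo.homPositive_mono (J := ∅) subset_rfl
      (fun _ _ => Or.inl rfl) (Exo.homPositive_of_types ha (finrank_kp p) (fun _ => w.integral)
        (fun _ => w.weil) hQ))⟩

/-- A single triply transitive field with an imaginary quadratic subfield. -/
theorem single_over (ha : 0 < a) (w : WeilNum p a) (h3 : TriplyTransitive w.E)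
    (hE : 6 ≤ finrank ℚ w.E)
    (hpow : Generates w.num)
    (Q : ImagQuad) (θ : FHom Q.k w.E) :
    NumPositive ν Set.univ (fun _ : Unit => w) ∧
      HomPositive ν Q.nonsplit Set.univ (fun _ : Unit => w) := by
  have hQ : Exo.QuadTypes (K := fun _ : Unit => w.E) p (fun _ => a) (fun _ => w.num) Q.κ
      (Set.univ : Set Unit) (fun i hi => θ) := by
    refine ⟨fun _ => hpow, fun i hi => absurd (Set.mem_univ i) hi, fun i hi => ?_,
      fun i hi => ?_⟩
    · exact Or.inl (Exo.sumZero_of_triple Q.deg Q.κ _ h3 hE)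
    · intro φ ψ hφ hψ
      obtain ⟨σ, h1, h2⟩ := Exo.exists_aut_over Q.κ θ φ ψ hφ hψ
      exact ⟨σ, h1, h2, fun j _ hj => absurd (Subsingleton.elim j i) hj⟩
  exact ⟨numPositive_iff (W := fun _ : Unit => w) (Exo.numPositive_of_types ha Q.deg
      (fun _ => w.integral) (fun _ => w.weil) hQ),
    homPositive_iff (W := fun _ : Unit => w) (Exo.homPositive_mono subset_rfl
      (fun l hl => Or.inr hl) (Exo.homPositive_of_types ha Q.deg (fun _ => w.integral)
        (fun _ => w.weil) hQ))⟩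

end

end Pool.Agent.H395.Cyc
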